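import Pool.Agent.RS.StmtsT

/-!
# Row GOO of squad RS: good elements
-/

set_option autoImplicit false

namespace Pool.Agent.RS.H81

open Pool.Agent.RS

theorem goo : GooStmt := by
  intro B _ _ P P' q hP hq
  refine ⟨?_, ?_⟩
  · rintro u u' ⟨hu, α, hα, β, hβ, h1, h2⟩ ⟨hu', α', hα', β', hβ', h1', h2'⟩
    have e : (α * α' * q + α * β' * u' + α' * β * u) * q + (β * β') * (u * u') =
        (α * q + β * u) * (α' * q + β' * u') := by ring
    refine ⟨P.mul_mem hu hu', α * α' * q + α * β' * u' + α' * β * u, ?_, β * β',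
      P.mul_mem hβ hβ', ?_, ?_⟩
    · exact P.add_mem (P.add_mem (P.mul_mem (P.mul_mem hα hα') hq)
        (P.mul_mem (P.mul_mem hα hβ') hu')) (P.mul_mem (P.mul_mem hα' hβ) hu)
    · rw [e]
      exact P'.mul_mem h1 h1'
    · rw [e]
      exact mul_ne_zero h2 h2'
  · intro f hf hf0
    have e : (0 : B) * q + 1 * f = f := by ring
    refine ⟨hP hf, 0, P.zero_mem, 1, P.one_mem, ?_, ?_⟩
    · rw [e]
      exact hf
    · rw [e]
      exact hf0

end Pool.Agent.RS.H81
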