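import Pool.Agent.RS.StmtsF

/-!
# Row SSB of squad RS: coefficients in a subring
-/

set_option autoImplicit false

namespace Pool.Agent.RS.H81

open Pool.Agent.RS

theorem det_mem {R : Type} [CommRing R] (S : Subring R) {n : Type} [Fintype n] [DecidableEq n]
    (M : Matrix n n R) (h : ∀ i j, M i j ∈ S) : M.det ∈ S := by
  rw [Matrix.det_apply]
  apply S.sum_mem
  intro σ _
  rw [Units.smul_def]
  apply S.zsmul_mem
  exact S.prod_mem fun i _ => h _ _

theorem adj_mem {R : Type} [CommRing R] (S : Subring R) {n : Type} [Fintype n] [DecidableEq n]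
    (M : Matrix n n R) (h : ∀ i j, M i j ∈ S) (i j : n) : M.adjugate i j ∈ S := by
  rw [Matrix.adjugate_apply]
  apply det_mem
  intro a b
  rw [Matrix.updateRow_apply]
  by_cases ha : a = j
  · rw [if_pos ha, Pi.single_apply]
    by_cases hb : b = i
    · rw [if_pos hb]
      exact S.one_mem
    · rw [if_neg hb]
      exact S.zero_mem
  · rw [if_neg ha]
    exact h _ _

theorem syl_mem {R : Type} [CommRing R] (S : Subring R) (m g : ℕ) (b G : Polynomial R)
    (hb : ∀ i, b.coeff i ∈ S) (hG : ∀ i, G.coeff i ∈ S) (i j : Fin (m + g)) :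
    Polynomial.sylvester b G m g i j ∈ S := by
  unfold Polynomial.sylvester
  rw [Matrix.of_apply]
  refine Fin.addCases (fun k => ?_) (fun k => ?_) j
  · rw [Fin.addCases_left]
    split_ifs
    · exact hG _
    · exact S.zero_mem
  · rw [Fin.addCases_right]
    split_ifs
    · exact hb _
    · exact S.zero_mem

theorem ssb : SsbStmt := by
  intro R _ S m g b G P hb hG hP
  have hs := syl_mem S m g b G hb hG
  have ha := adj_mem S _ hs
  refine ⟨?_, ?_, det_mem S _ hs⟩
  · intro i
    unfold sylA
    split_ifs
    · apply S.sum_mem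
      intro k _
      exact S.mul_mem (ha _ _) (hP _)
    · exact S.zero_mem
  · intro i
    unfold sylB
    split_ifs
    · apply S.sum_mem
      intro k _
      exact S.mul_mem (ha _ _) (hP _)
    · exact S.zero_mem

end Pool.Agent.RS.H81
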